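import Pool.Agent.L7h3.GL.Stm

/-! GL, part GOOD: all but few elements are good. -/

set_option autoImplicit false

namespace Pool.Agent.L7h14.GL

open Cardinal Pool.Agent.L7h3.GL

/-- the elements of a saturated chain are above its first element -/
theorem le_of_mem {L : Type} [CompleteLattice L] {a z : L} {l : List L} (h : l.head? = some a)
    (hc : l.IsChain (· ⋖ ·)) (hz : z ∈ l) : a ≤ z := by
  cases l with
  | nil => simp at h
  | cons x l =>
    rw [List.head?_cons, Option.some.injEq] at h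
    subst h
    have h2 : (x :: l).IsChain (· < ·) := hc.imp fun _ _ h => h.lt
    have h3 := List.isChain_iff_pairwise.1 h2
    rw [List.pairwise_cons] at h3
    rcases List.mem_cons.1 hz with h4 | h4
    · exact h4 ▸ le_rfl
    · exact (h3.1 z h4).le

theorem s_GOOD (hG : S_GCON) (hLi : S_LIFT) (hR : S_RICH) (hD : S_GRD) : S_GOOD := by
  classical
  intro L _ ρ hρ b T B hT hinf hBT hB hlk hgood
  obtain ⟨p0, hp0, hd0⟩ := hlk
  have hκ : ℵ₀ ≤ #T := by
    rw [Cardinal.aleph0_le_mk_iff]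
    exact hinf.to_subtype
  -- the used elements
  obtain ⟨W, hW⟩ : ∃ W : Set L, W = ⋃ x : B, {z | z ∈ p0 x} := ⟨_, rfl⟩
  have hWc : #W < #T := by
    rw [hW]
    rcases Set.finite_or_infinite B with hf | hf
    · haveI := hf.to_subtype
      refine lt_of_lt_of_le ?_ hκ
      rw [Cardinal.lt_aleph0_iff_set_finite]
      exact Set.finite_iUnion fun x => List.finite_toSet _
    · have h1 : ℵ₀ ≤ #B := by
        rw [Cardinal.aleph0_le_mk_iff]
        exact hf.to_subtype
      refine lt_of_le_of_lt (Cardinal.mk_iUnion_le_sum_mk.trans ?_) hB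
      refine (Cardinal.sum_le_sum _ (fun _ => ℵ₀) fun x => ?_).trans ?_
      · exact (Cardinal.lt_aleph0_iff_set_finite.2 (List.finite_toSet _)).le
      · rw [Cardinal.sum_const']
        exact (Cardinal.mul_aleph0_eq h1).le
  -- the chains above the good elements
  have hrich : ∀ x : L, ∃ U : Set L, ∃ q : L → List L, x ∈ T → x ∉ B →
      (U ⊆ Con x T ∧ #U = #T ∧ (∀ a ∈ U, Pc (tp x (Con x T)) a (q a) ∧ ∀ z ∈ q a, Gen x (Con x T) z) ∧
        ∀ a ∈ U, ∀ a' ∈ U, a ≠ a' → List.Disjoint (q a) (q a')) := by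
    intro x
    by_cases h : x ∈ T ∧ x ∉ B
    · have hc := hgood x h.1 h.2
      have hi : (Con x T).Infinite := by
        rw [← Set.infinite_coe_iff, ← Cardinal.aleph0_le_mk_iff, hc]
        exact hκ
      obtain ⟨U, hU, hU2, q, hq1, hq2⟩ := hR L ρ hρ x (Con x T) (hG L ρ hρ b T x hT h.1).1 hi
      exact ⟨U, q, fun _ _ => ⟨hU, hU2.trans hc, hq1, hq2⟩⟩
    · exact ⟨∅, fun _ => [], fun h1 h2 => absurd ⟨h1, h2⟩ h⟩
  choose U q hUq using hrich
  obtain ⟨p, hp, hpd⟩ := hD L (T \ B) W #T (fun x => {l | ∃ a ∈ U x, l = q x a}) hκ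
    (Cardinal.mk_le_mk_of_subset Set.diff_subset) hWc (by
      rintro x ⟨hx, hxB⟩
      obtain ⟨h1, h2, h3, h4⟩ := hUq x hx hxB
      constructor
      · rw [← h2]
        refine Cardinal.mk_le_of_injective (f := fun a : U x => (⟨q x a, a, a.2, rfl⟩ :
          {l | ∃ a ∈ U x, l = q x a})) ?_
        intro a a' haa
        have e : q x a = q x a' := congrArg Subtype.val haa
        have e1 := (h3 a a.2).1.1
        have e2 := (h3 a' a'.2).1.1
        rw [e, e2] at e1
        exact Subtype.ext (Option.some.inj e1).symm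
      · rintro l ⟨a, ha, rfl⟩ l' ⟨a', ha', rfl⟩ hne
        exact h4 a ha a' ha' fun h => hne (by rw [h]))
  -- facts on the new lists
  have hnew : ∀ x ∈ T, x ∉ B → ∃ a ∈ Con x T, Pc (tp x (Con x T)) a (p x) ∧
      ∀ z ∈ p x, Gen x (Con x T) z := by
    intro x hx hxB
    obtain ⟨h1, h2, h3, h4⟩ := hUq x hx hxB
    obtain ⟨⟨a, ha, hpa⟩, -⟩ := hp x ⟨hx, hxB⟩
    refine ⟨a, h1 ha, ?_⟩
    rw [hpa]
    exact h3 a ha
  have hbig : ∀ x ∈ T, x ∉ B → ∀ z ∈ p x, z ∉ T := by
    intro x hx hxB z hz hzT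
    obtain ⟨a, ha, hpc, -⟩ := hnew x hx hxB
    have h1 : a ≤ z := le_of_mem hpc.1 hpc.2.1 hz
    have h2 : x ⋖ a := (hG L ρ hρ b T x hT hx).1 a ha
    exact (hT z hzT).2 (hT x hx).lt (h2.lt.trans_le h1)
  refine ⟨fun x => if x ∈ B then p0 x else x :: p x, fun x hx => ?_, fun x hx y hy hxy => ?_⟩
  · by_cases hxB : x ∈ B
    · simp only [if_pos hxB]
      exact hp0 x hxB
    · simp only [if_neg hxB]
      obtain ⟨a, ha, hpc, hgen⟩ := hnew x hx hxB
      exact hLi L ρ hρ b T x a (p x) hT hx ha hpc hgen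
  · have hcase : ∀ x ∈ T, ∀ y ∈ T, x ∈ B → y ∉ B → List.Disjoint (p0 x) (y :: p y) := by
      intro x hx y hy hxB hyB z hz1 hz2
      rcases List.mem_cons.1 hz2 with h | h
      · subst h
        have h1 : x ≤ z := le_of_mem (hp0 x hxB).1.1 (hp0 x hxB).1.2.1 hz1
        have h2 : x ≠ z := fun h => hyB (h ▸ hxB)
        exact (hT z hy).2 (hT x hx).lt (lt_of_le_of_ne h1 h2)
      · refine (hp y ⟨hy, hyB⟩).2 z h ?_
        rw [hW]
        exact Set.mem_iUnion.2 ⟨⟨x, hxB⟩, hz1⟩
    by_cases hxB : x ∈ B <;> by_cases hyB : y ∈ B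
    · simp only [if_pos hxB, if_pos hyB]
      exact hd0 x hxB y hyB hxy
    · simp only [if_pos hxB, if_neg hyB]
      exact hcase x hx y hy hxB hyB
    · simp only [if_neg hxB, if_pos hyB]
      exact (hcase y hy x hx hyB hxB).symm
    · simp only [if_neg hxB, if_neg hyB]
      intro z hz1 hz2
      rcases List.mem_cons.1 hz1 with h | h <;> rcases List.mem_cons.1 hz2 with h' | h'
      · exact hxy (h.symm.trans h')
      · subst h
        exact hbig y hy hyB z h' hx
      · subst h'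
        exact hbig x hx hxB z h hy
      · exact hpd x ⟨hx, hxB⟩ y ⟨hy, hyB⟩ hxy h h'

end Pool.Agent.L7h14.GL
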